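import Mathlib
import Pool.Agent.Lib_helper97.PolyDefs
import Pool.Agent.Lib_helper97.PolyTenVertices

/-!
# A dimensionally unambiguous graph of a 5-polytope with ten vertices

The definitions used in the statement are in `Pool.Agent.Lib_helper97.PolyDefs`, the proof is in
`Pool.Agent.Lib_helper97.PolyTenVertices` (see there for the idea of the proof).
-/

namespace Pool.Agent.Results.MP_2aa405_co.TenVertices

open Pool.Agent.Lib_helper97.PolyGraph

/-- **There is a 5-realizable graph with 10 vertices that is dimensionally unambiguous.** -/
theorem result :
    ∃ G : SimpleGraph (Fin 10), Realizable 5 G ∧ ∀ d : ℕ, d ≠ 5 → ¬ Realizable d G :=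
  ⟨exGraph, exGraph_realizable, fun _ hd h => hd (exGraph_not_realizable h)⟩

end Pool.Agent.Results.MP_2aa405_co.TenVertices
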